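import Pool.Agent.T2H32.TG.RV3

set_option autoImplicit false

/-!
# Goldbach's problem with primes from a very thin set

For a set `Q` of primes let `count Q x` be the number of its members up to `x`, `reps Q m` the number of representations
`m = p + q` with `p ≤ q` in `Q`, and `exceptions Q x` the number of `n ≤ x` for which `2 n` is not a sum of two members
of `Q`. Let `S` be the singular series of Hardy and Littlewood and `C₂` the twin prime constant.

1. For every `c > 0` there is a set `Q` of primes with `count Q x ~ c √x` for which the numbers of representations have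
  the mixed Poisson law with parameter `π c ^ 2 S(2 n) / 8`: for every `k` the number of `n ≤ x` with `reps Q (2 n) = k`
  is `∑_{n ≤ x} e ^ (-λ) λ ^ k / k! + o(x)`, with `λ = π c ^ 2 S(2 n) / 8`.
2. Let `w` be nondecreasing, unbounded, `w(√x) ~ w(x)`, `w(x) ^ 2 = O(log log x)`. There is a set `Q` of primes with
  `count Q x ~ w(x) √x` and `exceptions Q x = x exp (-(π C₂ / 4 + o(1)) w(x) ^ 2)`.
3. For every function `w` tending to infinity there is a set `Q` of primes with `count Q x ≤ w(x) √x` for all large `x`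
  such that almost all even numbers are sums of two members of `Q`.
4. For every `δ > 0` there are `C` and a set `Q` of primes with `count Q x ≤ C √(x log x)` for all large `x` such that
  every even number `m` with at least `δ m / (log m) ^ 2` representations as a sum of two primes is a sum of two members
  of `Q`.
5. If almost all even numbers are sums of two members of `Q` then `count Q x ≥ (1 - o(1)) √x`.
-/

open Filter Topology

namespace Pool.Agent.Results.MP_967f73_nt.ThinGoldbachSets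

/-- the number of members of `Q` up to `x` -/
noncomputable def count (Q : Set ℕ) (x : ℕ) : ℕ := {p : ℕ | p ∈ Q ∧ p ≤ x}.ncard

/-- the number of representations of `m` as a sum `p + q` with `p ≤ q`, both in `Q` -/
noncomputable def reps (Q : Set ℕ) (m : ℕ) : ℕ := {p : ℕ | p ∈ Q ∧ m - p ∈ Q ∧ 2 * p ≤ m}.ncard

/-- the number of `1 ≤ n ≤ x` for which `2 n` is not a sum of two members of `Q` -/
noncomputable def exceptions (Q : Set ℕ) (x : ℕ) : ℕ :=
  {n : ℕ | 1 ≤ n ∧ n ≤ x ∧ ¬ ∃ p ∈ Q, ∃ q ∈ Q, p + q = 2 * n}.ncard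

/-- the twin prime constant `∏_{p > 2} (1 - 1 / (p - 1) ^ 2)`, the infimum of the decreasing partial products -/
noncomputable def C₂ : ℝ := ⨅ z : ℕ, ∏ p ∈ (Finset.Icc 3 z).filter Nat.Prime, (1 - 1 / ((p : ℝ) - 1) ^ 2)

/-- the singular series `2 C₂ ∏_{p ∣ m, p > 2} (p - 1) / (p - 2)` -/
noncomputable def S (m : ℕ) : ℝ :=
  2 * C₂ * ∏ p ∈ m.primeFactors.filter (fun p => 2 < p), ((p : ℝ) - 1) / ((p : ℝ) - 2)

/-- the Poisson probabilities -/
noncomputable def poisson (k : ℕ) (lam : ℝ) : ℝ := Real.exp (-lam) * lam ^ k / (k.factorial : ℝ)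

/-- the number of ordered representations of `m` as a sum of two primes -/
noncomputable def goldbach (m : ℕ) : ℕ := {p : ℕ | p.Prime ∧ (m - p).Prime ∧ p ≤ m}.ncard

theorem result :
    (∀ c : ℝ, 0 < c → ∃ Q : Set ℕ, (∀ p ∈ Q, p.Prime) ∧
      Tendsto (fun x : ℕ => (count Q x : ℝ) / √(x : ℝ)) atTop (𝓝 c) ∧
      ∀ k : ℕ, Tendsto (fun x : ℕ => (({n : ℕ | 1 ≤ n ∧ n ≤ x ∧ reps Q (2 * n) = k}.ncard : ℝ) -
        ∑ n ∈ Finset.Icc 1 x, poisson k (Real.pi * c ^ 2 * S (2 * n) / 8)) / x) atTop (𝓝 0)) ∧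
    (∀ w : ℕ → ℝ, Monotone w → Tendsto w atTop atTop →
      Tendsto (fun x : ℕ => w (Nat.sqrt x) / w x) atTop (𝓝 1) →
      (∃ A : ℝ, ∀ᶠ x : ℕ in atTop, w x ^ 2 ≤ A * Real.log (Real.log x)) →
      ∃ Q : Set ℕ, (∀ p ∈ Q, p.Prime) ∧
        Tendsto (fun x : ℕ => (count Q x : ℝ) / (w x * √(x : ℝ))) atTop (𝓝 1) ∧
        Tendsto (fun x : ℕ => Real.log ((x : ℝ) / exceptions Q x) / w x ^ 2) atTop (𝓝 (Real.pi * C₂ / 4))) ∧
    (∀ w : ℕ → ℝ, Tendsto w atTop atTop → ∃ Q : Set ℕ, (∀ p ∈ Q, p.Prime) ∧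
      (∀ᶠ x : ℕ in atTop, (count Q x : ℝ) ≤ w x * √(x : ℝ)) ∧
      Tendsto (fun x : ℕ => (exceptions Q x : ℝ) / x) atTop (𝓝 0)) ∧
    (∀ δ : ℝ, 0 < δ → ∃ (C : ℝ) (Q : Set ℕ), (∀ p ∈ Q, p.Prime) ∧
      (∀ᶠ x : ℕ in atTop, (count Q x : ℝ) ≤ C * √((x : ℝ) * Real.log x)) ∧
      ∀ m : ℕ, Even m → 2 ≤ m → δ * ((m : ℝ) / Real.log m ^ 2) ≤ goldbach m →
        ∃ p ∈ Q, ∃ q ∈ Q, p + q = m) ∧
    (∀ Q : Set ℕ, Tendsto (fun x : ℕ => (exceptions Q x : ℝ) / x) atTop (𝓝 0) →
      ∀ ε : ℝ, 0 < ε → ∀ᶠ x : ℕ in atTop, (1 - ε) * √(x : ℝ) ≤ count Q x) := by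
  refine ⟨?_, ?_, ?_, ?_, ?_⟩
  · intro c hc
    obtain ⟨Q, h1, h2, r, hr, h3⟩ := Pool.Agent.T2H32.TG.part_one (Real.pi * c ^ 2 / 8) (by positivity)
    refine ⟨Q, h1, ?_, fun k => ?_⟩
    · have e : √(8 * (Real.pi * c ^ 2 / 8) / Real.pi) = c := by
        have : 8 * (Real.pi * c ^ 2 / 8) / Real.pi = c ^ 2 := by
          have := Real.pi_pos
          field_simp
        rw [this]
        exact Real.sqrt_sq hc.le
      rw [e] at h2
      exact h2
    · have h4 := h3 k
      have e1 : ∀ m, r m = reps Q m := hr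
      simp only [e1] at h4
      refine h4.congr fun x => ?_
      congr 2
      refine Finset.sum_congr rfl fun n _ => ?_
      unfold poisson Pool.Agent.T2H32.TG.pz
      have e2 : Real.pi * c ^ 2 / 8 * Pool.Agent.H560R3.GB.sing (2 * n) = Real.pi * c ^ 2 * S (2 * n) / 8 := by
        have : Pool.Agent.H560R3.GB.sing (2 * n) = S (2 * n) := rfl
        rw [this]
        ring
      rw [e2]
  · intro w h1 h2 h3 h4
    exact Pool.Agent.T2H32.TG.rate w h1 h2 h3 h4
  · intro w hw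
    exact Pool.Agent.T2H32.TG.part_two w hw
  · intro δ hδ
    obtain ⟨C, Q, h1, h2, h3⟩ := Pool.Agent.T2H32.TG.part_four δ hδ
    refine ⟨C, Q, h1, h2, ?_⟩
    intro m hm hm2 hg
    obtain ⟨n, hn⟩ := even_iff_two_dvd.1 hm
    subst hn
    apply h3 n (by omega)
    refine hg.trans (le_of_eq ?_)
    unfold goldbach Pool.Agent.T2H32.TG.g2
    rw [← Set.ncard_coe_finset]
    congr 2
    ext p
    simp only [Set.mem_ofPred_eq, Finset.coe_filter, Finset.mem_range]
    constructor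
    · rintro ⟨a, b, c⟩
      exact ⟨by omega, a, b⟩
    · rintro ⟨a, b, c⟩
      exact ⟨b, c, by omega⟩
  · intro Q hQ ε hε
    exact Pool.Agent.T2H32.TG.lower Q hQ ε hε

end Pool.Agent.Results.MP_967f73_nt.ThinGoldbachSets
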